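import Mathlib

set_option autoImplicit false

open scoped Topology ComplexConjugate
open Filter

namespace Pool.Agent.C4D58

/-- The plane. -/
abbrev V := EuclideanSpace ℝ (Fin 2)

/-- `ex t = exp (2 π i t)`. -/
noncomputable def ex (t : ℝ) : ℂ := Complex.exp (2 * (Real.pi : ℂ) * Complex.I * (t : ℂ))

lemma ex_add (s t : ℝ) : ex (s + t) = ex s * ex t := by
  simp only [ex, ← Complex.exp_add]
  congr 1
  push_cast
  ring

lemma ex_zero : ex 0 = 1 := by simp [ex]

lemma conj_ex (t : ℝ) : conj (ex t) = ex (-t) := by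
  unfold ex
  rw [← Complex.exp_conj]
  congr 1
  simp only [map_mul, Complex.conj_I, Complex.conj_ofReal, Complex.ofReal_neg, map_ofNat]
  ring

lemma norm_ex (t : ℝ) : ‖ex t‖ = 1 := by
  unfold ex
  rw [show (2 * (Real.pi : ℂ) * Complex.I * (t : ℂ)) = ((2 * Real.pi * t : ℝ) : ℂ) * Complex.I by
    push_cast; ring]
  exact Complex.norm_exp_ofReal_mul_I _

/-- The character `a ↦ ex (φ a)`. -/
noncomputable def chr {M : Type*} [AddMonoid M] (φ : M →+ ℝ) : Multiplicative M →* ℂ where
  toFun a := ex (φ a.toAdd)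
  map_one' := by simp [ex_zero]
  map_mul' a b := by simp [ex_add]

/-- Evaluation of a formal exponential polynomial. -/
noncomputable def ev {M : Type*} [AddMonoid M] (φ : M →+ ℝ) : AddMonoidAlgebra ℂ M →ₐ[ℂ] ℂ :=
  AddMonoidAlgebra.lift ℂ ℂ M (chr φ)

lemma ev_single {M : Type*} [AddMonoid M] (φ : M →+ ℝ) (a : M) (c : ℂ) :
    ev φ (AddMonoidAlgebra.single a c) = c * ex (φ a) := by
  simp [ev, chr, AddMonoidAlgebra.lift_single]

/-- The Laurent polynomial `w` with `z` replaced by the exponential of frequency `η`. -/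
noncomputable def W (η : V) : AddMonoidAlgebra ℂ ℤ →+* AddMonoidAlgebra ℂ V :=
  AddMonoidAlgebra.mapDomainRingHom ℂ (zmultiplesHom V η)

lemma W_single (η : V) (n : ℤ) (c : ℂ) :
    W η (AddMonoidAlgebra.single n c) = AddMonoidAlgebra.single (n • η) c := by
  unfold W
  rw [AddMonoidAlgebra.mapDomainRingHom_apply, AddMonoidAlgebra.mapDomain_single]
  rfl

/-- the functional `⟨x, ·⟩` -/
noncomputable def ip (x : V) : V →+ ℝ := (innerSL ℝ x).toLinearMap.toAddMonoidHom

lemma ip_apply (x y : V) : ip x y = inner ℝ x y := rfl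

lemma ev_W (x η : V) (w : AddMonoidAlgebra ℂ ℤ) :
    ev (ip x) (W η w) = ev (zmultiplesHom ℝ (inner ℝ x η : ℝ)) w := by
  induction w using AddMonoidAlgebra.induction_linear with
  | zero => simp
  | add a b ha hb => simp only [map_add, ha, hb]
  | single n c =>
    rw [W_single, ev_single, ev_single]
    congr 2
    rw [map_zsmul, ip_apply]
    simp

/-- all frequencies of `A` lie in `U` -/
def FreqIn (U : Set V) (A : AddMonoidAlgebra ℂ V) : Prop := ∀ ω, A.coeff ω ≠ 0 → ω ∈ U

lemma FreqIn.mono {U U' : Set V} (h : U ⊆ U') {A : AddMonoidAlgebra ℂ V} (hA : FreqIn U A) :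
    FreqIn U' A := fun ω hω => h (hA ω hω)

lemma FreqIn.add {U : Set V} {A B : AddMonoidAlgebra ℂ V} (hA : FreqIn U A) (hB : FreqIn U B) :
    FreqIn U (A + B) := by
  intro ω hω
  by_cases h : A.coeff ω = 0
  · exact hB ω (by
      intro h'
      exact hω (by simp [h, h']))
  · exact hA ω h

lemma FreqIn.inter {U U' : Set V} {A : AddMonoidAlgebra ℂ V} (hA : FreqIn U A)
    (hA' : FreqIn U' A) : FreqIn (U ∩ U') A := fun ω hω => ⟨hA ω hω, hA' ω hω⟩

lemma freqIn_zero (U : Set V) : FreqIn U 0 := by
  intro ω hω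
  simp at hω

lemma freqIn_single {U : Set V} {ω : V} (h : ω ∈ U) (c : ℂ) :
    FreqIn U (AddMonoidAlgebra.single ω c) := by
  intro ω' hω'
  by_cases h' : ω = ω'
  · exact h' ▸ h
  · exact absurd (by simp [h']) hω'

lemma freqIn_W_mul {U : Set V} (hU : IsOpen U) {A : AddMonoidAlgebra ℂ V} (hA : FreqIn U A)
    (w : AddMonoidAlgebra ℂ ℤ) : ∀ᶠ η in 𝓝[≠] (0 : V), FreqIn U (W η w * A) := by
  refine Eventually.filter_mono nhdsWithin_le_nhds ?_
  induction w using AddMonoidAlgebra.induction_linear with
  | zero =>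
    refine Eventually.of_forall fun η => ?_
    rw [map_zero, zero_mul]
    exact freqIn_zero U
  | add a b ha hb =>
    filter_upwards [ha, hb] with η h1 h2
    rw [map_add, add_mul]
    exact h1.add h2
  | single n c =>
    have h1 : ∀ᶠ η in 𝓝 (0 : V), ∀ ω ∈ A.coeff.support, n • η + ω ∈ U := by
      rw [Filter.eventually_all_finset]
      intro ω hω
      have h2 : Continuous fun η : V => n • η + ω := by fun_prop
      have h3 : ω ∈ U := hA ω (by simpa using hω)
      have h4 : U ∈ 𝓝 (n • (0 : V) + ω) := by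
        rw [smul_zero, zero_add]
        exact hU.mem_nhds h3
      exact h2.continuousAt h4
    filter_upwards [h1] with η h2
    intro ω hω
    rw [W_single] at hω
    have h3 : A.coeff (-(n • η) + ω) ≠ 0 := by
      intro h4
      apply hω
      simp [AddMonoidAlgebra.coeff_single_mul_apply, h4]
    have h5 := h2 (-(n • η) + ω) (by simpa using h3)
    rwa [add_neg_cancel_left] at h5

lemma coeff_eventually_zero (A : AddMonoidAlgebra ℂ V) :
    ∀ᶠ ζ in 𝓝[≠] (0 : V), A.coeff ζ = 0 := by
  have h1 : ((A.coeff.support : Set V) \ {0}).Finite :=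
    (A.coeff.support.finite_toSet).subset Set.sdiff_subset
  have h2 : ((A.coeff.support : Set V) \ {0})ᶜ ∈ 𝓝 (0 : V) :=
    h1.isClosed.isOpen_compl.mem_nhds (by simp)
  filter_upwards [nhdsWithin_le_nhds h2, self_mem_nhdsWithin] with ζ h3 h4
  by_contra h5
  exact h3 ⟨by simpa using h5, h4⟩

lemma indep (A : AddMonoidAlgebra ℂ V) (w : AddMonoidAlgebra ℂ ℤ) :
    ∀ᶠ η in 𝓝[≠] (0 : V), (W η w * A).coeff 0 = w.coeff 0 * A.coeff 0 := by
  induction w using AddMonoidAlgebra.induction_linear with
  | zero => simp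
  | add a b ha hb =>
    filter_upwards [ha, hb] with η h1 h2
    rw [map_add, add_mul, AddMonoidAlgebra.coeff_add, Finsupp.add_apply, h1, h2,
      AddMonoidAlgebra.coeff_add, Finsupp.add_apply, add_mul]
  | single n c =>
    by_cases hn : n = 0
    · subst hn
      refine Eventually.of_forall fun η => ?_
      rw [W_single]
      simp [AddMonoidAlgebra.coeff_single_mul_apply]
    · have ht : Tendsto (fun η : V => -(n • η)) (𝓝[≠] (0 : V)) (𝓝[≠] (0 : V)) := by
        rw [tendsto_nhdsWithin_iff]
        constructor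
        · have : Continuous fun η : V => -(n • η) := by fun_prop
          have h2 := this.tendsto 0
          simp only [smul_zero, neg_zero] at h2
          exact h2.mono_left nhdsWithin_le_nhds
        · filter_upwards [self_mem_nhdsWithin] with η hη
          have h3 : η ≠ 0 := hη
          have h4 : n • η ≠ 0 := by
            rw [← Int.cast_smul_eq_zsmul ℝ]
            exact smul_ne_zero (by exact_mod_cast hn) h3
          exact neg_ne_zero.mpr h4
      filter_upwards [ht.eventually (coeff_eventually_zero A)] with η h1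
      rw [W_single, AddMonoidAlgebra.coeff_single_mul_apply, add_zero, h1,
        AddMonoidAlgebra.coeff_single, Finsupp.single_eq_of_ne (Ne.symm hn)]
      simp

end Pool.Agent.C4D58
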