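import Pool.Agent.C4D58.Alg

set_option autoImplicit false

open scoped Topology ComplexConjugate SchwartzMap FourierTransform
open Filter MeasureTheory

namespace Pool.Agent.C4D58

/-- The partial Fourier integral of `f` over the disc `R • (v + B)`, that is, over the open disc
with centre `R • v` and radius `R`. -/
noncomputable def discPartial (v : V) (R : ℝ) (f : V → ℂ) (x : V) : ℂ :=
  ∫ ξ in Metric.ball (R • v) R,
    Complex.exp (2 * (Real.pi : ℂ) * Complex.I * ((inner ℝ x ξ : ℝ) : ℂ)) *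
      (∫ y : V, Complex.exp (-(2 * (Real.pi : ℂ) * Complex.I * ((inner ℝ y ξ : ℝ) : ℂ))) * f y)

lemma inner_integral_eq (f : 𝓢(V, ℂ)) (ξ : V) :
    (∫ y : V, Complex.exp (-(2 * (Real.pi : ℂ) * Complex.I * ((inner ℝ y ξ : ℝ) : ℂ))) * f y) =
      (𝓕 f : 𝓢(V, ℂ)) ξ := by
  rw [SchwartzMap.fourier_coe, Real.fourier_eq']
  congr 1
  ext y
  rw [smul_eq_mul]
  congr 2
  push_cast
  ring

lemma discPartial_eq (v : V) (R : ℝ) (f : 𝓢(V, ℂ)) (x : V) :
    discPartial v R f x = ∫ ξ in Metric.ball (R • v) R, ex (inner ℝ x ξ) * (𝓕 f : 𝓢(V, ℂ)) ξ := by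
  unfold discPartial
  simp only [inner_integral_eq]
  rfl

lemma inv_eq (f : 𝓢(V, ℂ)) (x : V) :
    ∫ ξ, ex (inner ℝ x ξ) * (𝓕 f : 𝓢(V, ℂ)) ξ = f x := by
  have h : (𝓕⁻ (𝓕 f) : 𝓢(V, ℂ)) x = f x := by rw [FourierPair.fourierInv_fourier_eq]
  rw [← h, SchwartzMap.fourierInv_coe, Real.fourierInv_eq']
  congr 1
  ext y
  rw [smul_eq_mul]
  unfold ex
  congr 2
  rw [real_inner_comm]
  push_cast
  ring

variable {r : ℝ}

/-- the bump function of radius `r` centred at `ω` -/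
noncomputable def bmp (hr : 0 < r) (ω : V) : ContDiffBump ω := ⟨r / 2, r, by linarith, by linarith⟩

/-- the bump function as a Schwartz function -/
noncomputable def bS (hr : 0 < r) (ω : V) : 𝓢(V, ℂ) :=
  HasCompactSupport.toSchwartzMap (f := fun ξ => ((bmp hr ω ξ : ℝ) : ℂ))
    ((bmp hr ω).hasCompactSupport.comp_left (g := fun t : ℝ => (t : ℂ)) (by simp))
    (Complex.ofRealCLM.contDiff.comp (bmp hr ω).contDiff)

lemma bS_apply (hr : 0 < r) (ω ξ : V) : bS hr ω ξ = ((bmp hr ω ξ : ℝ) : ℂ) := rfl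

lemma bS_zero (hr : 0 < r) {ω ξ : V} (h : ξ ∉ Metric.ball ω r) : bS hr ω ξ = 0 := by
  rw [bS_apply]
  have h1 : ξ ∉ Function.support (bmp hr ω) := by
    rw [ContDiffBump.support_eq]
    exact h
  rw [Function.notMem_support.mp h1]
  simp

lemma bS_translate (hr : 0 < r) (ω ξ : V) : bS hr ω ξ = bS hr 0 (ξ - ω) := by
  rw [bS_apply, bS_apply, ContDiffBump.apply, ContDiffBump.apply]
  simp [bmp]

/-- the inverse Fourier transform of the bump function at `ω` -/
noncomputable def sS (hr : 0 < r) (ω : V) : 𝓢(V, ℂ) := 𝓕⁻ (bS hr ω)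

lemma fourier_sS (hr : 0 < r) (ω : V) : (𝓕 (sS hr ω) : 𝓢(V, ℂ)) = bS hr ω := by
  unfold sS
  exact FourierInvPair.fourier_fourierInv_eq _

lemma sS_eq (hr : 0 < r) (ω x : V) : sS hr ω x = ∫ ξ, ex (inner ℝ x ξ) * bS hr ω ξ := by
  rw [← inv_eq, fourier_sS]

lemma sS_translate (hr : 0 < r) (ω x : V) : sS hr ω x = sS hr 0 x * ex (inner ℝ x ω) := by
  rw [sS_eq, sS_eq, ← integral_mul_const]
  rw [← integral_add_right_eq_self (fun ξ => ex (inner ℝ x ξ) * bS hr ω ξ) ω]
  congr 1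
  ext ξ
  rw [bS_translate, add_sub_cancel_right, inner_add_right, ex_add]
  ring

/-- the Schwartz function `Φ * ev P` -/
noncomputable def Sch (hr : 0 < r) (P : AddMonoidAlgebra ℂ V) : 𝓢(V, ℂ) :=
  Finsupp.linearCombination ℂ (sS hr) P.coeff

lemma Sch_add (hr : 0 < r) (P Q : AddMonoidAlgebra ℂ V) : Sch hr (P + Q) = Sch hr P + Sch hr Q := by
  simp [Sch]

lemma Sch_single (hr : 0 < r) (ω : V) (c : ℂ) :
    Sch hr (AddMonoidAlgebra.single ω c) = c • sS hr ω := by
  simp [Sch]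

lemma Sch_apply (hr : 0 < r) (P : AddMonoidAlgebra ℂ V) (x : V) :
    Sch hr P x = sS hr 0 x * ev (ip x) P := by
  induction P using AddMonoidAlgebra.induction_linear with
  | zero => simp [Sch]
  | add a b ha hb =>
    rw [Sch_add, add_apply, ha, hb, map_add, mul_add]
  | single ω c =>
    rw [Sch_single, smul_apply, sS_translate, ev_single, ip_apply, smul_eq_mul]
    ring

lemma fourier_Sch (hr : 0 < r) (P : AddMonoidAlgebra ℂ V) :
    (𝓕 (Sch hr P) : 𝓢(V, ℂ)) = Finsupp.linearCombination ℂ (bS hr) P.coeff := by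
  induction P using AddMonoidAlgebra.induction_linear with
  | zero =>
    simp only [Sch, AddMonoidAlgebra.coeff_zero, map_zero]
    exact FourierTransform.fourier_zero
  | add a b ha hb =>
    rw [Sch_add, FourierTransform.fourier_add, ha, hb]
    simp
  | single ω c =>
    rw [Sch_single, FourierTransform.fourier_smul, fourier_sS]
    simp

lemma fourier_Sch_apply (hr : 0 < r) (P : AddMonoidAlgebra ℂ V) (ξ : V) :
    (𝓕 (Sch hr P) : 𝓢(V, ℂ)) ξ = ∑ ω ∈ P.coeff.support, P.coeff ω * bS hr ω ξ := by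
  rw [fourier_Sch, Finsupp.linearCombination_apply, Finsupp.sum, sum_apply]
  rfl

end Pool.Agent.C4D58
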