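import Pool.Agent.C4D58.Four

set_option autoImplicit false

open scoped Topology ComplexConjugate SchwartzMap FourierTransform ENNReal
open Filter MeasureTheory

namespace Pool.Agent.C4D58

variable {r : ℝ}

lemma fourier_Sch_zero (hr : 0 < r) {P : AddMonoidAlgebra ℂ V} {ξ : V}
    (h : ∀ ω, P.coeff ω ≠ 0 → ξ ∉ Metric.ball ω r) : (𝓕 (Sch hr P) : 𝓢(V, ℂ)) ξ = 0 := by
  rw [fourier_Sch_apply]
  apply Finset.sum_eq_zero
  intro ω hω
  rw [bS_zero hr (h ω (by simpa using hω)), mul_zero]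

lemma discPartial_Sch (hr : 0 < r) {v : V} {R : ℝ} {P Q : AddMonoidAlgebra ℂ V}
    (hin : ∀ ω, Q.coeff ω ≠ 0 → Metric.ball ω r ⊆ Metric.ball (R • v) R)
    (hout : ∀ ω, (P - Q).coeff ω ≠ 0 → Disjoint (Metric.ball ω r) (Metric.ball (R • v) R))
    (x : V) : discPartial v R (Sch hr P) x = Sch hr Q x := by
  rw [discPartial_eq]
  have h1 : ∀ ξ ∈ Metric.ball (R • v) R, ex (inner ℝ x ξ) * (𝓕 (Sch hr P) : 𝓢(V, ℂ)) ξ =
      ex (inner ℝ x ξ) * (𝓕 (Sch hr Q) : 𝓢(V, ℂ)) ξ := by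
    intro ξ hξ
    congr 1
    have h2 : Sch hr P = Sch hr Q + Sch hr (P - Q) := by
      rw [← Sch_add, add_sub_cancel]
    rw [h2, FourierTransform.fourier_add, add_apply, fourier_Sch_zero hr (P := P - Q), add_zero]
    intro ω hω hξ'
    exact Set.disjoint_left.mp (hout ω hω) hξ' hξ
  rw [setIntegral_congr_fun measurableSet_ball h1,
    setIntegral_eq_integral_of_forall_compl_eq_zero, inv_eq]
  intro ξ hξ
  rw [fourier_Sch_zero, mul_zero]
  intro ω hω hξ'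
  exact hξ (hin ω hω hξ')

lemma integrable_sq (f : 𝓢(V, ℂ)) : Integrable fun x => ‖f x‖ ^ 2 :=
  (memLp_two_iff_integrable_sq_norm f.continuous.aestronglyMeasurable).mp (f.memLp 2 volume)

lemma lintegral_sq (f : 𝓢(V, ℂ)) : ∫⁻ x, ‖f x‖ₑ ^ 2 = ENNReal.ofReal (∫ x, ‖f x‖ ^ 2) := by
  rw [ofReal_integral_eq_lintegral_ofReal (integrable_sq f)
    (Eventually.of_forall fun x => by positivity)]
  congr 1
  ext x
  rw [← ofReal_norm, ENNReal.ofReal_pow (norm_nonneg _)]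

/-- the squared `L²` norm of `Φ` -/
noncomputable def nrm (hr : 0 < r) : ℝ := ∫ x, ‖sS hr 0 x‖ ^ 2

lemma nrm_pos (hr : 0 < r) : 0 < nrm hr := by
  unfold nrm
  rw [← SchwartzMap.integral_norm_sq_fourier, fourier_sS]
  refine Continuous.integral_pos_of_hasCompactSupport_nonneg_nonzero (x := (0 : V)) ?_ ?_ ?_ ?_
  · exact ((bS hr 0).continuous.norm).pow 2
  · have h1 : HasCompactSupport fun ξ : V => ((bmp hr 0 ξ : ℝ) : ℂ) :=
      (bmp hr 0).hasCompactSupport.comp_left (g := fun t : ℝ => (t : ℂ)) (by simp)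
    exact h1.comp_left (g := fun z : ℂ => ‖z‖ ^ 2) (by simp)
  · intro x
    positivity
  · rw [bS_apply, ContDiffBump.one_of_mem_closedBall]
    · simp
    · exact Metric.mem_closedBall_self (by simp only [bmp]; linarith)

lemma mean_eq (hr : 0 < r) {A : AddMonoidAlgebra ℂ V}
    (hA : ∀ ω, A.coeff ω ≠ 0 → ω ≠ 0 → 2 * r ≤ ‖ω‖) :
    ∫ x, ((‖sS hr 0 x‖ ^ 2 : ℝ) : ℂ) * ev (ip x) A = A.coeff 0 * (nrm hr : ℂ) := by
  have h1 : ∀ x, ((‖sS hr 0 x‖ ^ 2 : ℝ) : ℂ) * ev (ip x) A =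
      inner ℂ (sS hr 0 x) (Sch hr A x) := by
    intro x
    rw [RCLike.inner_apply, Sch_apply]
    have := Complex.mul_conj' (sS hr 0 x)
    push_cast
    rw [← this]
    ring
  have h2 : ∀ ξ, inner ℂ ((𝓕 (sS hr 0) : 𝓢(V, ℂ)) ξ) ((𝓕 (Sch hr A) : 𝓢(V, ℂ)) ξ) =
      A.coeff 0 * inner ℂ ((𝓕 (sS hr 0) : 𝓢(V, ℂ)) ξ) ((𝓕 (sS hr 0) : 𝓢(V, ℂ)) ξ) := by
    intro ξ
    rw [fourier_sS]
    by_cases hξ : ξ ∈ Metric.ball (0 : V) r
    · have h3 : (𝓕 (Sch hr A) : 𝓢(V, ℂ)) ξ = A.coeff 0 * bS hr 0 ξ := by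
        rw [fourier_Sch_apply]
        refine Finset.sum_eq_single 0 ?_ ?_
        · intro ω hω hω0
          rw [bS_zero hr, mul_zero]
          intro h4
          have h5 := hA ω (by simpa using hω) hω0
          rw [Metric.mem_ball, dist_zero_right] at hξ
          rw [Metric.mem_ball, dist_eq_norm] at h4
          have h6 : ‖ω‖ ≤ ‖ξ‖ + ‖ξ - ω‖ := by
            have := norm_sub_le ξ (ξ - ω)
            rwa [sub_sub_cancel] at this
          linarith
        · intro h0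
          have : A.coeff 0 = 0 := by simpa using h0
          rw [this, zero_mul]
      rw [h3, RCLike.inner_apply, RCLike.inner_apply]
      ring
    · rw [bS_zero hr hξ]
      simp
  simp only [h1]
  rw [← SchwartzMap.integral_inner_fourier_fourier]
  simp only [h2]
  rw [integral_const_mul, SchwartzMap.integral_inner_fourier_fourier, nrm, ← integral_complex_ofReal]
  congr 2
  ext x
  rw [RCLike.inner_apply]
  have := Complex.mul_conj' (sS hr 0 x)
  push_cast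
  rw [← this]

end Pool.Agent.C4D58
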