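import Pool.Agent.C4D58.TreeThm
import Pool.Agent.C4D58.Mean

set_option autoImplicit false

open scoped Topology ComplexConjugate SchwartzMap FourierTransform ENNReal
open Filter MeasureTheory Finset

namespace Pool.Agent.C4D58

lemma lt_of_Ins {e : V} (he : ‖e‖ = 1) {R : ℝ} (hR : 0 < R) {ω : V} (h : ω ∈ Ins e R) :
    ‖ω - R • e‖ < R := by
  have h1 : ‖ω - R • e‖ ^ 2 < R ^ 2 := by
    rw [norm_sub_sq_real, norm_smul, inner_smul_right, he, Real.norm_eq_abs, mul_one, sq_abs,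
      real_inner_comm]
    have h2 : ‖ω‖ ^ 2 < 2 * R * (inner ℝ e ω : ℝ) := h
    linarith
  exact lt_of_pow_lt_pow_left₀ 2 hR.le h1

lemma lt_of_Outs {e : V} (he : ‖e‖ = 1) {R : ℝ} {ω : V} (h : ω ∈ Outs e R) :
    R < ‖ω - R • e‖ := by
  have h1 : R ^ 2 < ‖ω - R • e‖ ^ 2 := by
    rw [norm_sub_sq_real, norm_smul, inner_smul_right, he, Real.norm_eq_abs, mul_one, sq_abs,
      real_inner_comm]
    have h2 : 2 * R * (inner ℝ e ω : ℝ) < ‖ω‖ ^ 2 := h
    linarith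
  exact lt_of_pow_lt_pow_left₀ 2 (norm_nonneg _) h1

lemma ev_small {a b c : ℝ} (h : a < c) : ∀ᶠ r in 𝓝[>] (0 : ℝ), a + r * b ≤ c := by
  have h1 : Continuous fun r : ℝ => a + r * b := by fun_prop
  have h2 := h1.tendsto 0
  rw [zero_mul, add_zero] at h2
  filter_upwards [(h2.mono_left nhdsWithin_le_nhds).eventually (gt_mem_nhds h)] with r hr
  exact le_of_lt hr

lemma ev_small_supp (A : AddMonoidAlgebra ℂ V) :
    ∀ᶠ r in 𝓝[>] (0 : ℝ), ∀ ω, A.coeff ω ≠ 0 → ω ≠ 0 → 2 * r ≤ ‖ω‖ := by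
  have h1 : ∀ᶠ r in 𝓝[>] (0 : ℝ), ∀ ω ∈ A.coeff.support, ω ≠ 0 → 2 * r ≤ ‖ω‖ := by
    rw [Filter.eventually_all_finset]
    intro ω _
    by_cases h : ω = 0
    · exact Eventually.of_forall fun r h' => absurd h h'
    · filter_upwards [ev_small (a := 0) (b := 2) (norm_pos_iff.mpr h)] with r hr _
      linarith
  filter_upwards [h1] with r hr ω hω
  exact hr ω (by simpa using hω)

lemma exists_r {e : V} (he : ‖e‖ = 1) {N : ℕ} {R : ℕ → ℝ} (hpos : ∀ L < N, 0 < R L)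
    {P : AddMonoidAlgebra ℂ V} {Q : ℕ → AddMonoidAlgebra ℂ V}
    (hin : ∀ L < N, FreqIn (Ins e (R L)) (Q L)) (hout : ∀ L < N, FreqIn (Outs e (R L)) (P - Q L))
    (A B : AddMonoidAlgebra ℂ V) : ∃ r : ℝ, 0 < r ∧
      (∀ ω, A.coeff ω ≠ 0 → ω ≠ 0 → 2 * r ≤ ‖ω‖) ∧ (∀ ω, B.coeff ω ≠ 0 → ω ≠ 0 → 2 * r ≤ ‖ω‖) ∧
      (∀ L ∈ range N, ∀ ω ∈ (Q L).coeff.support, ‖ω - R L • e‖ + r * (1 + R L) ≤ R L) ∧
      (∀ L ∈ range N, ∀ ω ∈ (P - Q L).coeff.support,
        R L + r * (1 + R L) ≤ ‖ω - R L • e‖) := by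
  have h3 : ∀ᶠ r in 𝓝[>] (0 : ℝ), ∀ L ∈ range N, ∀ ω ∈ (Q L).coeff.support,
      ‖ω - R L • e‖ + r * (1 + R L) ≤ R L := by
    rw [Filter.eventually_all_finset]
    intro L hL
    rw [Filter.eventually_all_finset]
    intro ω hω
    exact ev_small (lt_of_Ins he (hpos L (mem_range.mp hL))
      (hin L (mem_range.mp hL) ω (by simpa using hω)))
  have h4 : ∀ᶠ r in 𝓝[>] (0 : ℝ), ∀ L ∈ range N, ∀ ω ∈ (P - Q L).coeff.support,
      R L + r * (1 + R L) ≤ ‖ω - R L • e‖ := by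
    rw [Filter.eventually_all_finset]
    intro L hL
    rw [Filter.eventually_all_finset]
    intro ω hω
    exact ev_small (lt_of_Outs he (hout L (mem_range.mp hL) ω (Finsupp.mem_support_iff.mp hω)))
  obtain ⟨r, ⟨⟨h0, h1⟩, h2⟩, h3, h4⟩ := (((eventually_mem_nhdsWithin (a := (0:ℝ))
    (s := Set.Ioi 0)).and (ev_small_supp A)).and (ev_small_supp B)).and (h3.and h4) |>.exists
  exact ⟨r, h0, h1, h2, h3, h4⟩

lemma enorm_sum_le {N : ℕ} {g : ℕ → ℂ} {y : ℕ → ℂ} {B : ℝ≥0∞}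
    (hg : ∀ L < N, ∃ r : ℝ, 0 ≤ r ∧ g L = (r : ℂ)) (hsum : ∑ L ∈ range N, g L = 1)
    (hy : ∀ L ∈ range N, ‖y L‖ₑ ≤ B) : ‖∑ L ∈ range N, g L * y L‖ₑ ≤ B := by
  have h1 : ∑ L ∈ range N, ‖g L‖ₑ = 1 := by
    have h2 : ∀ L ∈ range N, g L = ((‖g L‖ : ℝ) : ℂ) := by
      intro L hL
      obtain ⟨r, hr, hr'⟩ := hg L (mem_range.mp hL)
      rw [hr', Complex.norm_real, Real.norm_of_nonneg hr]
    have h3 : ∑ L ∈ range N, ‖g L‖ = 1 := by
      have h4 : ((∑ L ∈ range N, ‖g L‖ : ℝ) : ℂ) = 1 := by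
        rw [← hsum]
        push_cast
        exact (Finset.sum_congr rfl h2).symm
      exact_mod_cast h4
    have h5 : ∀ L ∈ range N, ‖g L‖ₑ = ENNReal.ofReal ‖g L‖ := fun L _ => (ofReal_norm _).symm
    rw [Finset.sum_congr rfl h5, ← ENNReal.ofReal_sum_of_nonneg (fun _ _ => norm_nonneg _), h3,
      ENNReal.ofReal_one]
  calc ‖∑ L ∈ range N, g L * y L‖ₑ ≤ ∑ L ∈ range N, ‖g L * y L‖ₑ :=
        _root_.enorm_sum_le _ _
    _ ≤ ∑ L ∈ range N, ‖g L‖ₑ * B := by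
        refine Finset.sum_le_sum fun L hL => ?_
        rw [enorm_mul]
        gcongr
        exact hy L hL
    _ = B := by rw [← Finset.sum_mul, h1, one_mul]

lemma integral_Sch_sq {r : ℝ} (hr : 0 < r) {X : AddMonoidAlgebra ℂ V}
    (hX : ∀ ω, X.coeff ω ≠ 0 → ω ≠ 0 → 2 * r ≤ ‖ω‖) :
    (X.coeff 0).re ^ 2 * nrm hr ≤ ∫ x, ‖Sch hr X x‖ ^ 2 := by
  set t := (X.coeff 0).re with ht
  have h0 : ∀ x, ‖Sch hr X x‖ ^ 2 = ‖sS hr 0 x‖ ^ 2 * ‖ev (ip x) X‖ ^ 2 := by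
    intro x
    rw [Sch_apply, norm_mul, mul_pow]
  have hcont : Continuous fun x => ev (ip x) X := by
    have h1 : ∀ Y : AddMonoidAlgebra ℂ V, Continuous fun x => ev (ip x) Y := by
      intro Y
      induction Y using AddMonoidAlgebra.induction_linear with
      | zero => simpa using continuous_const
      | add a b ha hb =>
        simp only [map_add]
        exact ha.add hb
      | single ω c =>
        simp only [ev_single, ip_apply]
        exact continuous_const.mul (continuous_ex.comp (by fun_prop))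
    exact h1 X
  have hint1 : Integrable fun x => ‖sS hr 0 x‖ ^ 2 := integrable_sq _
  have hint2 : Integrable fun x => ‖Sch hr X x‖ ^ 2 := integrable_sq _
  have hint3 : Integrable fun x => ((‖sS hr 0 x‖ ^ 2 : ℝ) : ℂ) * ev (ip x) X := by
    refine (hint1.add hint2).mono' ?_ ?_
    · refine Continuous.aestronglyMeasurable ?_
      have := (sS hr 0).continuous
      fun_prop
    · refine Eventually.of_forall fun x => ?_
      rw [norm_mul, Complex.norm_real, Real.norm_of_nonneg (sq_nonneg _), Pi.add_apply, h0]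
      have h1 : 0 ≤ ‖sS hr 0 x‖ ^ 2 := sq_nonneg _
      nlinarith [mul_nonneg h1 (sq_nonneg (‖ev (ip x) X‖ - 1)), mul_nonneg h1
        (norm_nonneg (ev (ip x) X)), mul_nonneg h1 (sq_nonneg (‖ev (ip x) X‖)),
        mul_nonneg h1 (sq_nonneg (‖ev (ip x) X‖ - 1 / 2))]
  have hre : ∫ x, ‖sS hr 0 x‖ ^ 2 * (ev (ip x) X).re = t * nrm hr := by
    have h1 := congrArg Complex.re (mean_eq hr hX)
    rw [Complex.mul_re, Complex.ofReal_re, Complex.ofReal_im, mul_zero, sub_zero] at h1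
    rw [← h1]
    have h2 := integral_re hint3
    simp only [RCLike.re_to_complex] at h2
    rw [← h2]
    congr 1
    ext x
    rw [Complex.re_ofReal_mul]
  have hint4 : Integrable fun x => ‖sS hr 0 x‖ ^ 2 * (ev (ip x) X).re := by
    refine hint3.re.congr (Eventually.of_forall fun x => ?_)
    simp only [RCLike.re_to_complex]
    rw [Complex.re_ofReal_mul]
  have h5 : ∫ x, (2 * t * (‖sS hr 0 x‖ ^ 2 * (ev (ip x) X).re) - t ^ 2 * ‖sS hr 0 x‖ ^ 2) ≤
      ∫ x, ‖Sch hr X x‖ ^ 2 := by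
    refine integral_mono ((hint4.const_mul _).sub (hint1.const_mul _)) hint2 fun x => ?_
    simp only [h0]
    have h6 : (ev (ip x) X).re ^ 2 ≤ ‖ev (ip x) X‖ ^ 2 := by
      rw [← sq_abs]
      exact pow_le_pow_left₀ (abs_nonneg _) (Complex.abs_re_le_norm _) 2
    have h7 : 0 ≤ ‖sS hr 0 x‖ ^ 2 := sq_nonneg _
    nlinarith [mul_le_mul_of_nonneg_left h6 h7, mul_nonneg h7 (sq_nonneg ((ev (ip x) X).re - t))]
  rw [integral_sub (hint4.const_mul _) (hint1.const_mul _), integral_const_mul,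
    integral_const_mul, hre] at h5
  have h8 : ∫ x, ‖sS hr 0 x‖ ^ 2 = nrm hr := rfl
  rw [h8] at h5
  linarith

lemma unit_case {e : V} (he : ‖e‖ = 1) (j m : ℕ) {R : ℕ → ℝ} (hpos : ∀ L < 2 ^ m, 0 < R L)
    (hR : ∀ i k, i < k → k < 2 ^ m → R i < R k) (ha : 0 ≤ aseq j m) :
    ∃ ρ : ℝ, 0 < ρ ∧ ∀ v : V, ‖v - e‖ < ρ → ∃ (f : 𝓢(V, ℂ)) (c : ℝ), 0 < c ∧
      ∫ x, ‖f x‖ ^ 2 = aseq j m * c ∧
      ENNReal.ofReal ((aseq j m) ^ 2 / 16 * c) ≤
        ∫⁻ x, (⨆ L ∈ range (2 ^ m), ‖discPartial v (R L) f x‖ₑ) ^ 2 := by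
  obtain ⟨P, P', Q, G, T⟩ := exists_tree he j m R hpos hR 1 one_pos
  set X : AddMonoidAlgebra ℂ V := ∑ L ∈ range (2 ^ m), G L * Q L with hX
  obtain ⟨r, hr, hA, hB, h3, h4⟩ := exists_r he hpos T.ins T.out (P * P') X
  refine ⟨r, hr, fun v hv => ⟨Sch hr P, nrm hr, nrm_pos hr, ?_, ?_⟩⟩
  · have h1 := mean_eq hr hA
    rw [T.en] at h1
    have h2 : ∀ x, ((‖sS hr 0 x‖ ^ 2 : ℝ) : ℂ) * ev (ip x) (P * P') =
        ((‖Sch hr P x‖ ^ 2 : ℝ) : ℂ) := by
      intro x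
      rw [map_mul, T.cj, Complex.mul_conj', Sch_apply, norm_mul]
      push_cast
      ring
    simp only [h2] at h1
    rw [integral_complex_ofReal] at h1
    exact_mod_cast h1
  · have hS : ∀ L ∈ range (2 ^ m), ∀ x, discPartial v (R L) (Sch hr P) x = Sch hr (Q L) x := by
      intro L hL x
      have hRL := hpos L (mem_range.mp hL)
      have hdist : dist (R L • v) (R L • e) ≤ R L * r := by
        rw [dist_eq_norm, ← smul_sub, norm_smul, Real.norm_of_nonneg hRL.le]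
        exact mul_le_mul_of_nonneg_left hv.le hRL.le
      refine discPartial_Sch hr ?_ ?_ x
      · intro ω hω
        have h5 := h3 L hL ω (by simpa using hω)
        refine Metric.ball_subset_ball' ?_
        have h6 := dist_triangle ω (R L • e) (R L • v)
        rw [dist_comm (R L • e)] at h6
        rw [← dist_eq_norm] at h5
        linarith
      · intro ω hω
        have h5 := h4 L hL ω (Finsupp.mem_support_iff.mpr hω)
        refine Metric.ball_disjoint_ball ?_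
        have h6 := dist_triangle ω (R L • v) (R L • e)
        rw [← dist_eq_norm] at h5
        linarith
    have hpt : ∀ x, ‖Sch hr X x‖ₑ ≤ ⨆ L ∈ range (2 ^ m), ‖discPartial v (R L) (Sch hr P) x‖ₑ := by
      intro x
      have h5 : Sch hr X x = ∑ L ∈ range (2 ^ m), ev (ip x) (G L) * Sch hr (Q L) x := by
        rw [Sch_apply, hX, map_sum, mul_sum]
        refine Finset.sum_congr rfl fun L _ => ?_
        rw [map_mul, Sch_apply]
        ring
      rw [h5]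
      refine enorm_sum_le (fun L hL => T.wt L hL x) ?_ ?_
      · rw [← map_sum, T.one, map_one]
      · intro L hL
        rw [← hS L hL x]
        exact le_iSup₂_of_le L hL le_rfl
    have h6 : ENNReal.ofReal ((aseq j m) ^ 2 / 16 * nrm hr) ≤ ∫⁻ x, ‖Sch hr X x‖ₑ ^ 2 := by
      rw [lintegral_sq]
      refine ENNReal.ofReal_le_ofReal (le_trans ?_ (integral_Sch_sq hr hB))
      refine mul_le_mul_of_nonneg_right ?_ (nrm_pos hr).le
      rw [hX, T.co, Complex.re_mul_ofReal]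
      have h7 : 1 / 4 ≤ (bet j).re := bet_re j
      have h8 : aseq j m / 4 ≤ (bet j).re * aseq j m := by nlinarith
      have h9 : (aseq j m / 4) ^ 2 ≤ ((bet j).re * aseq j m) ^ 2 :=
        pow_le_pow_left₀ (by linarith) h8 2
      calc (aseq j m) ^ 2 / 16 = (aseq j m / 4) ^ 2 := by ring
        _ ≤ _ := h9
    refine h6.trans (lintegral_mono fun x => ?_)
    gcongr
    exact hpt x

lemma aseq_lower {j : ℕ} {ε : ℝ} (hε : 0 ≤ ε) (hε1 : ε ≤ 1) (h : 1 - ε ≤ kap j) (k : ℕ) :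
    0 ≤ aseq j k ∧ (k : ℝ) - ε * k ^ 2 ≤ aseq j k := by
  induction k with
  | zero => simp [aseq]
  | succ k ih =>
    obtain ⟨h1, h2⟩ := ih
    simp only [aseq]
    have h3 : (1 - ε) * aseq j k ≤ kap j * aseq j k := mul_le_mul_of_nonneg_right h h1
    have h4 : (1 - ε) * ((k : ℝ) - ε * k ^ 2) ≤ (1 - ε) * aseq j k :=
      mul_le_mul_of_nonneg_left h2 (by linarith)
    have h5 : 0 ≤ (1 - ε) * aseq j k := mul_nonneg (by linarith) h1
    constructor
    · linarith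
    · push_cast
      have h6 : 0 ≤ ε ^ 2 * (k : ℝ) ^ 2 := by positivity
      have h7 : 0 ≤ ε * (k : ℝ) := by positivity
      nlinarith

lemma exists_j {m : ℕ} (hm : 0 < m) : ∃ j, (m : ℝ) / 2 ≤ aseq j m := by
  have hm' : (0 : ℝ) < m := by exact_mod_cast hm
  have hm1 : (1 : ℝ) ≤ m := by exact_mod_cast hm
  obtain ⟨j, hj⟩ := kap_lower (ε := 1 / (2 * m)) (by positivity)
  refine ⟨j, le_trans ?_ (aseq_lower (by positivity) ?_ hj m).2⟩
  · have : 1 / (2 * (m : ℝ)) * m ^ 2 = m / 2 := by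
      field_simp
    rw [this]
    linarith
  · rw [div_le_one (by positivity)]
    linarith

/-- the main lower bound near a unit vector -/
lemma near_unit {e : V} (he : ‖e‖ = 1) {m : ℕ} (hm : 0 < m) {E : Finset ℝ}
    (hE : ∀ R ∈ E, 0 < R) (hcard : 2 ^ m ≤ E.card) :
    ∃ ρ : ℝ, 0 < ρ ∧ ∀ v : V, ‖v - e‖ < ρ → ∃ f : 𝓢(V, ℂ), 0 < ∫ x, ‖f x‖ ^ 2 ∧
      ENNReal.ofReal ((m : ℝ) / 32) * ∫⁻ x, ‖f x‖ₑ ^ 2 ≤
        ∫⁻ x, (⨆ R ∈ E, ‖discPartial v R f x‖ₑ) ^ 2 := by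
  obtain ⟨j, hj⟩ := exists_j hm
  have hm' : (0 : ℝ) < m := by exact_mod_cast hm
  have ha : 0 < aseq j m := by linarith
  set emb := E.orderEmbOfCardLe hcard with hemb
  set R : ℕ → ℝ := fun i => if h : i < 2 ^ m then emb ⟨i, h⟩ else 0 with hRdef
  have hRE : ∀ L < 2 ^ m, R L ∈ E := by
    intro L hL
    simp only [hRdef, hL, dif_pos]
    exact E.orderEmbOfCardLe_mem hcard ⟨L, hL⟩
  have hmono : ∀ i k, i < k → k < 2 ^ m → R i < R k := by
    intro i k hik hk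
    have hi : i < 2 ^ m := hik.trans hk
    simp only [hRdef, hk, hi, dif_pos]
    exact emb.strictMono (by simpa using hik)
  obtain ⟨ρ, hρ, h⟩ := unit_case he j m (fun L hL => hE _ (hRE L hL)) hmono ha.le
  refine ⟨ρ, hρ, fun v hv => ?_⟩
  obtain ⟨f, c, hc, h1, h2⟩ := h v hv
  refine ⟨f, ?_, ?_⟩
  · rw [h1]
    exact mul_pos ha hc
  · rw [lintegral_sq, h1, ← ENNReal.ofReal_mul (by positivity)]
    refine le_trans (ENNReal.ofReal_le_ofReal ?_) (h2.trans ?_)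
    · have h3 : (m : ℝ) / 32 ≤ aseq j m / 16 := by linarith
      have h4 : (m : ℝ) / 32 * (aseq j m * c) ≤ aseq j m / 16 * (aseq j m * c) :=
        mul_le_mul_of_nonneg_right h3 (mul_pos ha hc).le
      linarith [h4, (by ring : aseq j m / 16 * (aseq j m * c) = aseq j m ^ 2 / 16 * c)]
    · refine lintegral_mono fun x => ?_
      gcongr
      refine iSup₂_le fun L hL => ?_
      exact le_iSup₂_of_le (R L) (hRE L (mem_range.mp hL)) le_rfl

end Pool.Agent.C4D58
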