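import Pool.Agent.C4D58.Wt

set_option autoImplicit false

open scoped Topology ComplexConjugate
open Filter Finset

namespace Pool.Agent.C4D58

/-- the frequencies whose threshold radius lies strictly between `a` and `b` -/
def Reg (e : V) (a b : ℝ) : Set V :=
  {ξ | 0 < (inner ℝ e ξ : ℝ) ∧ 2 * a * (inner ℝ e ξ : ℝ) < ‖ξ‖ ^ 2 ∧
    ‖ξ‖ ^ 2 < 2 * b * (inner ℝ e ξ : ℝ)}

/-- the open disc with centre `R • e` and radius `R` (for a unit vector `e`) -/
def Ins (e : V) (R : ℝ) : Set V := {ξ | ‖ξ‖ ^ 2 < 2 * R * (inner ℝ e ξ : ℝ)}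

/-- the exterior of the closed disc with centre `R • e` and radius `R` -/
def Outs (e : V) (R : ℝ) : Set V := {ξ | 2 * R * (inner ℝ e ξ : ℝ) < ‖ξ‖ ^ 2}

/-- a punctured neighbourhood of the origin -/
def Nb (ε : ℝ) : Set V := {ξ | ‖ξ‖ < ε ∧ ξ ≠ 0}

lemma isOpen_Reg (e : V) (a b : ℝ) : IsOpen (Reg e a b) := by
  have h1 : IsOpen {ξ : V | 0 < (inner ℝ e ξ : ℝ)} := isOpen_lt (by fun_prop) (by fun_prop)
  have h2 : IsOpen {ξ : V | 2 * a * (inner ℝ e ξ : ℝ) < ‖ξ‖ ^ 2} :=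
    isOpen_lt (by fun_prop) (by fun_prop)
  have h3 : IsOpen {ξ : V | ‖ξ‖ ^ 2 < 2 * b * (inner ℝ e ξ : ℝ)} :=
    isOpen_lt (by fun_prop) (by fun_prop)
  exact h1.inter (h2.inter h3)

lemma isOpen_Ins (e : V) (R : ℝ) : IsOpen (Ins e R) :=
  isOpen_lt (by fun_prop) (by fun_prop)

lemma isOpen_Outs (e : V) (R : ℝ) : IsOpen (Outs e R) :=
  isOpen_lt (by fun_prop) (by fun_prop)

lemma isOpen_Nb (ε : ℝ) : IsOpen (Nb ε) := by
  have h1 : IsOpen {ξ : V | ‖ξ‖ < ε} := isOpen_lt (by fun_prop) (by fun_prop)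
  exact h1.inter isOpen_compl_singleton

lemma Reg_mono {e : V} {a b a' b' : ℝ} (ha : a' ≤ a) (hb : b ≤ b') : Reg e a b ⊆ Reg e a' b' := by
  rintro ξ ⟨h1, h2, h3⟩
  refine ⟨h1, lt_of_le_of_lt ?_ h2, lt_of_lt_of_le h3 ?_⟩
  · nlinarith
  · nlinarith

lemma Reg_Ins {e : V} {a b R : ℝ} (hb : b ≤ R) : Reg e a b ⊆ Ins e R := by
  rintro ξ ⟨h1, h2, h3⟩
  exact lt_of_lt_of_le h3 (by nlinarith)

lemma Reg_Outs {e : V} {a b R : ℝ} (ha : R ≤ a) : Reg e a b ⊆ Outs e R := by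
  rintro ξ ⟨h1, h2, h3⟩
  exact lt_of_le_of_lt (by nlinarith : _ ≤ _) h2

lemma frequently_Reg {e : V} (he : ‖e‖ = 1) {a b : ℝ} (ha : 0 < a) (hab : a < b) :
    ∃ᶠ η in 𝓝[≠] (0 : V), η ∈ Reg e a b := by
  set e' : V := !₂[-(e 1), e 0] with he'
  have hee : (inner ℝ e e' : ℝ) = 0 := by
    rw [PiLp.inner_apply, Fin.sum_univ_two]
    simp [he']
    ring
  have hne : ‖e'‖ = 1 := by
    rw [EuclideanSpace.norm_eq] at he ⊢
    simp only [Fin.sum_univ_two, Real.norm_eq_abs, sq_abs] at he ⊢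
    rw [← he]
    congr 1
    simp [he']
    ring
  have hin : ∀ c s : ℝ, (inner ℝ e (c • e + s • e') : ℝ) = c := by
    intro c s
    rw [inner_add_right, inner_smul_right, inner_smul_right, hee, real_inner_self_eq_norm_sq, he]
    ring
  have hnorm : ∀ c s : ℝ, ‖c • e + s • e'‖ ^ 2 = c ^ 2 + s ^ 2 := by
    intro c s
    rw [norm_add_sq_real, norm_smul, norm_smul, inner_smul_left, inner_smul_right, hee, he, hne]
    simp
  set τ : ℝ := (a + b) / 2 with hτ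
  have hτ0 : 0 < τ := by linarith
  set γ : ℝ → V := fun s => (s ^ 2 / (2 * τ)) • e + s • e' with hγ
  have hcont : Continuous γ := by fun_prop
  have ht : Tendsto γ (𝓝[>] (0 : ℝ)) (𝓝[≠] (0 : V)) := by
    rw [tendsto_nhdsWithin_iff]
    constructor
    · have h1 := hcont.tendsto 0
      have h2 : γ 0 = 0 := by simp [hγ]
      rw [h2] at h1
      exact h1.mono_left nhdsWithin_le_nhds
    · filter_upwards [self_mem_nhdsWithin] with s hs h3
      have h4 := hnorm (s ^ 2 / (2 * τ)) s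
      have h5 : γ s = 0 := h3
      simp only [hγ] at h5
      rw [h5] at h4
      have h6 : 0 < s := hs
      simp only [norm_zero] at h4
      have : 0 < s ^ 2 := by positivity
      have : 0 ≤ (s ^ 2 / (2 * τ)) ^ 2 := sq_nonneg _
      nlinarith
  have hev : ∀ᶠ s in 𝓝[>] (0 : ℝ), γ s ∈ Reg e a b := by
    have h1 : ∀ᶠ s in 𝓝[>] (0 : ℝ), s ^ 2 / (4 * τ ^ 2) < (b - τ) / τ := by
      have h2 : Continuous fun s : ℝ => s ^ 2 / (4 * τ ^ 2) := by fun_prop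
      have h3 := h2.tendsto 0
      have h4 : (0 : ℝ) < (b - τ) / τ := div_pos (by linarith) hτ0
      simp only [ne_eq, OfNat.ofNat_ne_zero, not_false_eq_true, zero_pow, zero_div] at h3
      exact (h3.mono_left nhdsWithin_le_nhds).eventually (gt_mem_nhds h4)
    filter_upwards [self_mem_nhdsWithin, h1] with s hs h5
    have hs0 : 0 < s := hs
    have hs2 : 0 < s ^ 2 := by positivity
    refine ⟨?_, ?_, ?_⟩
    · rw [hin]
      positivity
    · rw [hin, hnorm]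
      have h6 : 2 * a * (s ^ 2 / (2 * τ)) = s ^ 2 * (a / τ) := by
        field_simp
      rw [h6]
      have h7 : a / τ < 1 := by
        rw [div_lt_one hτ0]
        linarith
      have h8 : s ^ 2 * (a / τ) < s ^ 2 * 1 := mul_lt_mul_of_pos_left h7 hs2
      have : 0 ≤ (s ^ 2 / (2 * τ)) ^ 2 := sq_nonneg _
      linarith
    · rw [hin, hnorm]
      have h6 : 2 * b * (s ^ 2 / (2 * τ)) - s ^ 2 = s ^ 2 * ((b - τ) / τ) := by
        field_simp
      have h7 : (s ^ 2 / (2 * τ)) ^ 2 = s ^ 2 * (s ^ 2 / (4 * τ ^ 2)) := by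
        field_simp
        ring
      have h8 := mul_lt_mul_of_pos_left h5 hs2
      linarith
  exact ht.frequently hev.frequently

/-- the mean of `w1 * exp` -/
noncomputable def bet (j : ℕ) : ℂ := (w1 j * AddMonoidAlgebra.single 1 1).coeff 0

/-- the energy of a tree of depth `m` -/
noncomputable def aseq (j : ℕ) : ℕ → ℝ
  | 0 => 0
  | (m + 1) => 1 + kap j * aseq j m

/-- The data of the tree construction: the polynomial `P`, its conjugate `P'`, the partial sums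
`Q L` and the weights `G L` for the radii `R L`, `L < 2 ^ m`. -/
structure Tree (e : V) (j m : ℕ) (R : ℕ → ℝ) (ε : ℝ) (P P' : AddMonoidAlgebra ℂ V)
    (Q G : ℕ → AddMonoidAlgebra ℂ V) : Prop where
  hP : FreqIn (Nb ε) P
  hP' : FreqIn (Nb ε) P'
  cj : ∀ x, ev (ip x) P' = conj (ev (ip x) P)
  reg : FreqIn (Reg e (R 0) (R (2 ^ m - 1))) P
  ins : ∀ L < 2 ^ m, FreqIn (Ins e (R L)) (Q L)
  out : ∀ L < 2 ^ m, FreqIn (Outs e (R L)) (P - Q L)
  wt : ∀ L < 2 ^ m, ∀ x, ∃ r : ℝ, 0 ≤ r ∧ ev (ip x) (G L) = (r : ℂ)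
  one : ∑ L ∈ range (2 ^ m), G L = 1
  en : (P * P').coeff 0 = (aseq j m : ℂ)
  co : (∑ L ∈ range (2 ^ m), G L * Q L).coeff 0 = bet j * (aseq j m : ℂ)

lemma coeff_mul_zero {A B : AddMonoidAlgebra ℂ V} {ε : ℝ} (hA : FreqIn (Nb ε) A)
    (hB : ∀ ω, ‖ω‖ < ε → ω ≠ 0 → B.coeff ω = 0) : (A * B).coeff 0 = 0 := by
  classical
  by_contra h
  have h1 : (0 : V) ∈ (A * B).coeff.support := by simpa using h
  have h2 := AddMonoidAlgebra.support_coeff_mul_subset A B h1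
  rw [Finset.mem_add] at h2
  obtain ⟨a, ha, b, hb, hab⟩ := h2
  have h3 : a ∈ Nb ε := hA a (by simpa using ha)
  have h4 : b = -a := by
    rw [eq_neg_iff_add_eq_zero, add_comm]
    exact hab
  have h5 : B.coeff b = 0 := by
    apply hB
    · rw [h4, norm_neg]
      exact h3.1
    · rw [h4]
      exact neg_ne_zero.mpr h3.2
  simp [h5] at hb

lemma exists_eps (A B : AddMonoidAlgebra ℂ V) {ε : ℝ} (hε : 0 < ε) :
    ∃ ε', 0 < ε' ∧ ε' ≤ ε ∧ ∀ ω : V, ‖ω‖ < ε' → ω ≠ 0 → A.coeff ω = 0 ∧ B.coeff ω = 0 := by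
  have h := (coeff_eventually_zero A).and (coeff_eventually_zero B)
  rw [eventually_nhdsWithin_iff, Metric.eventually_nhds_iff] at h
  obtain ⟨δ, hδ, h⟩ := h
  refine ⟨min δ ε, lt_min hδ hε, min_le_right _ _, fun ω h1 h2 => h ?_ h2⟩
  rw [dist_zero_right]
  exact lt_of_lt_of_le h1 (min_le_left _ _)

lemma coeff_zero_of_Nb {A : AddMonoidAlgebra ℂ V} {ε : ℝ} (hA : FreqIn (Nb ε) A) :
    A.coeff 0 = 0 := by
  by_contra h
  exact (hA 0 h).2 rfl

end Pool.Agent.C4D58
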