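import Pool.Agent.C4D58.Tree

set_option autoImplicit false

open scoped Topology ComplexConjugate
open Filter Finset

namespace Pool.Agent.C4D58

lemma one_add_tau_nonneg (j : ℕ) (θ : ℝ) :
    0 ≤ (1 + tau j (Real.cos (2 * Real.pi * θ))) / 2 := by
  have := abs_le.mp (tau_abs (Real.abs_cos_le_one (2 * Real.pi * θ)) j)
  linarith [this.1]

lemma one_sub_tau_nonneg (j : ℕ) (θ : ℝ) :
    0 ≤ (1 - tau j (Real.cos (2 * Real.pi * θ))) / 2 := by
  have := abs_le.mp (tau_abs (Real.abs_cos_le_one (2 * Real.pi * θ)) j)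
  linarith [this.2]

lemma tree_zero (e : V) (j : ℕ) (R : ℕ → ℝ) (ε : ℝ) :
    Tree e j 0 R ε 0 0 (fun _ => 0) (fun _ => 1) where
  hP := freqIn_zero _
  hP' := freqIn_zero _
  cj x := by simp
  reg := freqIn_zero _
  ins L _ := freqIn_zero _
  out L _ := by simpa using freqIn_zero _
  wt L _ x := ⟨1, zero_le_one, by simp⟩
  one := by simp
  en := by simp [aseq]
  co := by simp [aseq]

lemma tree_succ {e : V} (he : ‖e‖ = 1) {j m : ℕ} {R : ℕ → ℝ} (hpos : ∀ L < 2 ^ (m + 1), 0 < R L)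
    (hR : ∀ i k, i < k → k < 2 ^ (m + 1) → R i < R k) {ε ε' : ℝ} (hε : 0 < ε) (hε' : ε' ≤ ε)
    {Pl Pl' Pr Pr' : AddMonoidAlgebra ℂ V} {Ql Gl Qr Gr : ℕ → AddMonoidAlgebra ℂ V}
    (Tl : Tree e j m R ε' Pl Pl' Ql Gl) (Tr : Tree e j m (fun i => R (2 ^ m + i)) ε Pr Pr' Qr Gr)
    (hsep : ∀ ω : V, ‖ω‖ < ε' → ω ≠ 0 → Pr.coeff ω = 0 ∧ Pr'.coeff ω = 0) :
    ∃ (P P' : AddMonoidAlgebra ℂ V) (Q G : ℕ → AddMonoidAlgebra ℂ V),
      Tree e j (m + 1) R ε P P' Q G := by
  classical
  set N : ℕ := 2 ^ m with hN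
  have hN0 : 0 < N := by positivity
  have h2N : 2 ^ (m + 1) = N + N := by rw [pow_succ, hN]; ring
  rw [h2N] at hpos hR
  set z : AddMonoidAlgebra ℂ ℤ := AddMonoidAlgebra.single 1 1 with hz
  set z' : AddMonoidAlgebra ℂ ℤ := AddMonoidAlgebra.single (-1) 1 with hz'
  have hzz : z * z' = 1 := by
    rw [hz, hz', AddMonoidAlgebra.single_mul_single]
    simp [AddMonoidAlgebra.one_def, -LaurentPolynomial.single_eq_C_mul_T]
  set u0 := w0 j with hu0
  set u1 := w1 j with hu1
  have hPl0 : Pl.coeff 0 = 0 := coeff_zero_of_Nb Tl.hP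
  have hPl0' : Pl'.coeff 0 = 0 := coeff_zero_of_Nb Tl.hP'
  have hPr0 : Pr.coeff 0 = 0 := coeff_zero_of_Nb Tr.hP
  have hPr0' : Pr'.coeff 0 = 0 := coeff_zero_of_Nb Tr.hP'
  have hlr : (Pl * Pr').coeff 0 = 0 := coeff_mul_zero Tl.hP fun ω h1 h2 => (hsep ω h1 h2).2
  have hrl : (Pr * Pl').coeff 0 = 0 := by
    rw [mul_comm]
    exact coeff_mul_zero Tl.hP' fun ω h1 h2 => (hsep ω h1 h2).1
  have hNN : Nb ε' ⊆ Nb ε := fun ξ h => ⟨lt_of_lt_of_le h.1 hε', h.2⟩
  -- the open conditions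
  have c1 := freqIn_W_mul (isOpen_Nb ε) (Tl.hP.mono hNN) u0
  have c2 := freqIn_W_mul (isOpen_Nb ε) (Tl.hP'.mono hNN) u0
  have c3 := freqIn_W_mul (isOpen_Nb ε) Tr.hP u1
  have c4 := freqIn_W_mul (isOpen_Nb ε) Tr.hP' u1
  have c5 := freqIn_W_mul (isOpen_Reg _ _ _) Tl.reg u0
  have c6 := freqIn_W_mul (isOpen_Reg _ _ _) Tr.reg u1
  have c7 : ∀ᶠ η in 𝓝[≠] (0 : V), ∀ L ∈ range N, FreqIn (Ins e (R L)) (W η u0 * Ql L) := by
    rw [Filter.eventually_all_finset]
    intro L hL
    exact freqIn_W_mul (isOpen_Ins _ _) (Tl.ins L (mem_range.mp hL)) u0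
  have c8 : ∀ᶠ η in 𝓝[≠] (0 : V), ∀ L ∈ range N,
      FreqIn (Ins e (R (N + L))) (W η u1 * Qr L) := by
    rw [Filter.eventually_all_finset]
    intro L hL
    exact freqIn_W_mul (isOpen_Ins _ _) (Tr.ins L (mem_range.mp hL)) u1
  have c9 : ∀ᶠ η in 𝓝[≠] (0 : V), ∀ L ∈ range N,
      FreqIn (Outs e (R L)) (W η u0 * (Pl - Ql L)) := by
    rw [Filter.eventually_all_finset]
    intro L hL
    exact freqIn_W_mul (isOpen_Outs _ _) (Tl.out L (mem_range.mp hL)) u0
  have c10 : ∀ᶠ η in 𝓝[≠] (0 : V), ∀ L ∈ range N,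
      FreqIn (Outs e (R (N + L))) (W η u1 * (Pr - Qr L)) := by
    rw [Filter.eventually_all_finset]
    intro L hL
    exact freqIn_W_mul (isOpen_Outs _ _) (Tr.out L (mem_range.mp hL)) u1
  -- the mean values
  have d1 := indep (Pl * Pl') (u0 * u0)
  have d2 := indep (Pr * Pr') (u1 * u1)
  have d3 := indep (Pl * Pr') (u0 * u1)
  have d4 := indep (Pr * Pl') (u0 * u1)
  have d5 := indep Pl (z' * u0)
  have d6 := indep Pr (z' * u1)
  have d7 := indep Pl' (z * u0)
  have d8 := indep Pr' (z * u1)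
  have d9 := indep (∑ L ∈ range N, Gl L * Ql L) (u0 * u0)
  have d10 := indep (∑ L ∈ range N, Gr L * Qr L) (u1 * u1)
  have d11 := indep 1 (u1 * z)
  have d12 := indep Pl (u1 * u0)
  -- small frequencies
  have s1 : ∀ᶠ η in 𝓝[≠] (0 : V), η ∈ Nb ε := by
    rw [eventually_nhdsWithin_iff]
    filter_upwards [Metric.ball_mem_nhds (0 : V) hε] with η h1 h2
    exact ⟨by simpa using h1, h2⟩
  have hfreq := frequently_Reg he (hpos (N - 1) (by omega)) (hR (N - 1) N (by omega) (by omega))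
  have hall := ((c1.and (c2.and (c3.and (c4.and (c5.and (c6.and (c7.and (c8.and
    (c9.and c10))))))))).and (d1.and (d2.and (d3.and (d4.and (d5.and (d6.and (d7.and
    (d8.and (d9.and (d10.and (d11.and (d12.and s1)))))))))))))
  obtain ⟨η, ⟨⟨c1, c2, c3, c4, c5, c6, c7, c8, c9, c10⟩, d1, d2, d3, d4, d5, d6, d7, d8, d9, d10,
    d11, d12, s1⟩, hη⟩ := (hall.and_frequently hfreq).exists
  have hWz : W η z = AddMonoidAlgebra.single η 1 := by rw [hz, W_single, one_smul]
  have hWz' : W η z' = AddMonoidAlgebra.single (-η) 1 := by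
    rw [hz', W_single, neg_smul, one_smul]
  have hmono : ∀ i k, i ≤ k → k < N + N → R i ≤ R k := by
    intro i k hik hk
    rcases Nat.eq_or_lt_of_le hik with h | h
    · rw [h]
    · exact (hR i k h hk).le
  have hlast : R (2 ^ (m + 1) - 1) = R (N + (N - 1)) := by
    congr 1
    omega
  refine ⟨W η z + W η u0 * Pl + W η u1 * Pr, W η z' + W η u0 * Pl' + W η u1 * Pr',
    fun L => if L < N then W η u0 * Ql L else W η z + W η u0 * Pl + W η u1 * Qr (L - N),
    fun L => if L < N then W η u0 * Gl L else W η u1 * Gr (L - N), ?_⟩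
  constructor
  · refine ((?_ : FreqIn _ _).add c1).add c3
    rw [hWz]
    exact freqIn_single s1 1
  · refine ((?_ : FreqIn _ _).add c2).add c4
    rw [hWz']
    exact freqIn_single (show -η ∈ Nb ε from ⟨by rw [norm_neg]; exact s1.1,
      neg_ne_zero.mpr s1.2⟩) 1
  · intro x
    simp only [map_add, map_mul, Tl.cj, Tr.cj, ev_W, hWz, hWz', ev_single, hu0, hu1]
    rw [show ev (zmultiplesHom ℝ (inner ℝ x η : ℝ)) (w0 j) = _ from evc_w0 _ _,
      show ev (zmultiplesHom ℝ (inner ℝ x η : ℝ)) (w1 j) = _ from evc_w1 _ _]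
    simp only [Complex.conj_ofReal, map_one, one_mul, conj_ex, map_neg]
  · rw [hlast]
    refine ((?_ : FreqIn _ _).add ?_).add ?_
    · rw [hWz]
      refine freqIn_single (Reg_mono ?_ ?_ hη) 1
      · exact hmono _ _ (Nat.zero_le _) (by omega)
      · exact hmono _ _ (by omega) (by omega)
    · refine c5.mono (Reg_mono le_rfl ?_)
      exact hmono _ _ (by omega) (by omega)
    · refine c6.mono (Reg_mono ?_ le_rfl)
      exact hmono _ _ (by omega) (by omega)
  · intro L hL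
    rw [h2N] at hL
    by_cases h : L < N
    · simp only [h, if_true]
      exact c7 L (mem_range.mpr h)
    · simp only [h, if_false]
      have hLN : N + (L - N) = L := by omega
      refine ((?_ : FreqIn _ _).add ?_).add ?_
      · rw [hWz]
        exact freqIn_single (Reg_Ins (hmono _ _ (by omega) hL) hη) 1
      · exact c5.mono (Reg_Ins (hmono _ _ (by omega) hL))
      · have := c8 (L - N) (mem_range.mpr (by omega))
        rwa [hLN] at this
  · intro L hL
    rw [h2N] at hL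
    by_cases h : L < N
    · simp only [h, if_true]
      rw [show W η z + W η u0 * Pl + W η u1 * Pr - W η u0 * Ql L =
        W η z + W η u0 * (Pl - Ql L) + W η u1 * Pr by ring]
      refine ((?_ : FreqIn _ _).add (c9 L (mem_range.mpr h))).add ?_
      · rw [hWz]
        exact freqIn_single (Reg_Outs (hmono _ _ (by omega) (by omega)) hη) 1
      · exact c6.mono (Reg_Outs (hmono _ _ (by omega) (by omega)))
    · simp only [h, if_false]
      have hLN : N + (L - N) = L := by omega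
      rw [show W η z + W η u0 * Pl + W η u1 * Pr - (W η z + W η u0 * Pl + W η u1 * Qr (L - N)) =
        W η u1 * (Pr - Qr (L - N)) by ring]
      have := c10 (L - N) (mem_range.mpr (by omega))
      rwa [hLN] at this
  · intro L hL x
    rw [h2N] at hL
    by_cases h : L < N
    · simp only [h, if_true]
      obtain ⟨r, hr, hr'⟩ := Tl.wt L h x
      refine ⟨(1 - tau j (Real.cos (2 * Real.pi * (inner ℝ x η : ℝ)))) / 2 * r,
        mul_nonneg (one_sub_tau_nonneg j _) hr, ?_⟩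
      rw [map_mul, hr', ev_W, hu0, show ev (zmultiplesHom ℝ (inner ℝ x η : ℝ)) (w0 j) = _ from
        evc_w0 _ _]
      push_cast
      ring
    · simp only [h, if_false]
      obtain ⟨r, hr, hr'⟩ := Tr.wt (L - N) (by omega) x
      refine ⟨(1 + tau j (Real.cos (2 * Real.pi * (inner ℝ x η : ℝ)))) / 2 * r,
        mul_nonneg (one_add_tau_nonneg j _) hr, ?_⟩
      rw [map_mul, hr', ev_W, hu1, show ev (zmultiplesHom ℝ (inner ℝ x η : ℝ)) (w1 j) = _ from
        evc_w1 _ _]
      push_cast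
      ring
  · rw [h2N, sum_range_add]
    have e1 : ∑ L ∈ range N, (if L < N then W η u0 * Gl L else W η u1 * Gr (L - N)) =
        W η u0 * ∑ L ∈ range N, Gl L := by
      rw [mul_sum]
      refine sum_congr rfl fun L hL => ?_
      rw [if_pos (mem_range.mp hL)]
    have e2 : ∑ i ∈ range N, (if N + i < N then W η u0 * Gl (N + i) else
        W η u1 * Gr (N + i - N)) = W η u1 * ∑ L ∈ range N, Gr L := by
      rw [mul_sum]
      refine sum_congr rfl fun i _ => ?_
      rw [if_neg (by omega), Nat.add_sub_cancel_left]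
    rw [e1, e2, Tl.one, Tr.one, mul_one, mul_one, ← map_add, hu0, hu1, w0_add_w1, map_one]
  · have e1 : (W η z + W η u0 * Pl + W η u1 * Pr) * (W η z' + W η u0 * Pl' + W η u1 * Pr') =
        W η (z * z') + W η (z * u0) * Pl' + W η (z * u1) * Pr' + W η (z' * u0) * Pl +
        W η (u0 * u0) * (Pl * Pl') + W η (u0 * u1) * (Pl * Pr') + W η (z' * u1) * Pr +
        W η (u0 * u1) * (Pr * Pl') + W η (u1 * u1) * (Pr * Pr') := by
      simp only [map_mul]
      ring
    rw [e1, hzz, map_one]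
    simp only [AddMonoidAlgebra.coeff_add, Finsupp.add_apply, d1, d2, d3, d4, d5, d6, d7, d8,
      hPl0, hPl0', hPr0, hPr0', hlr, hrl, mul_zero, add_zero, Tl.en, Tr.en]
    have e3 : (1 : AddMonoidAlgebra ℂ V).coeff 0 = 1 := by
      simp [AddMonoidAlgebra.one_def]
    rw [e3, add_assoc, ← add_mul, coeff_kap]
    simp only [aseq]
    push_cast
    ring
  · rw [h2N, sum_range_add]
    have e1 : ∑ L ∈ range N, (if L < N then W η u0 * Gl L else W η u1 * Gr (L - N)) *
        (if L < N then W η u0 * Ql L else W η z + W η u0 * Pl + W η u1 * Qr (L - N)) =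
        W η (u0 * u0) * ∑ L ∈ range N, Gl L * Ql L := by
      rw [mul_sum]
      refine sum_congr rfl fun L hL => ?_
      rw [if_pos (mem_range.mp hL), if_pos (mem_range.mp hL), map_mul]
      ring
    have e2 : ∑ i ∈ range N, (if N + i < N then W η u0 * Gl (N + i) else
        W η u1 * Gr (N + i - N)) * (if N + i < N then W η u0 * Ql (N + i) else
        W η z + W η u0 * Pl + W η u1 * Qr (N + i - N)) =
        W η (u1 * z) * (∑ L ∈ range N, Gr L) + (W η (u1 * u0) * Pl) * (∑ L ∈ range N, Gr L) +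
        W η (u1 * u1) * ∑ L ∈ range N, Gr L * Qr L := by
      rw [mul_sum, mul_sum, mul_sum, ← sum_add_distrib, ← sum_add_distrib]
      refine sum_congr rfl fun i _ => ?_
      rw [if_neg (by omega), if_neg (by omega), Nat.add_sub_cancel_left]
      simp only [map_mul]
      ring
    have e3 : (1 : AddMonoidAlgebra ℂ V).coeff 0 = 1 := by
      simp [AddMonoidAlgebra.one_def]
    have hlco : (∑ L ∈ range N, Gl L * Ql L).coeff 0 = bet j * (aseq j m : ℂ) := Tl.co
    have hrco : (∑ L ∈ range N, Gr L * Qr L).coeff 0 = bet j * (aseq j m : ℂ) := Tr.co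
    rw [e1, e2, Tr.one, mul_one (W η (u1 * u0) * Pl)]
    simp only [AddMonoidAlgebra.coeff_add, Finsupp.add_apply, d9, d10, d11, d12, hPl0, e3,
      hlco, hrco]
    have e4 : (u1 * z).coeff 0 = bet j := rfl
    rw [e4]
    simp only [aseq]
    push_cast
    rw [← coeff_kap]
    ring

/-- The tree construction. -/
theorem exists_tree {e : V} (he : ‖e‖ = 1) (j m : ℕ) : ∀ (R : ℕ → ℝ),
    (∀ L < 2 ^ m, 0 < R L) → (∀ i k, i < k → k < 2 ^ m → R i < R k) → ∀ ε : ℝ, 0 < ε →
    ∃ (P P' : AddMonoidAlgebra ℂ V) (Q G : ℕ → AddMonoidAlgebra ℂ V),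
      Tree e j m R ε P P' Q G := by
  induction m with
  | zero => exact fun R _ _ ε _ => ⟨_, _, _, _, tree_zero e j R ε⟩
  | succ m ih =>
    intro R hpos hR ε hε
    have h2N : 2 ^ (m + 1) = 2 ^ m + 2 ^ m := by rw [pow_succ]; ring
    obtain ⟨Pr, Pr', Qr, Gr, Tr⟩ := ih (fun i => R (2 ^ m + i))
      (fun L hL => hpos _ (by omega)) (fun i k h1 h2 => hR _ _ (by omega) (by omega)) ε hε
    obtain ⟨ε', hε'0, hε', hsep⟩ := exists_eps Pr Pr' hε
    obtain ⟨Pl, Pl', Ql, Gl, Tl⟩ := ih R (fun L hL => hpos _ (by omega))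
      (fun i k h1 h2 => hR _ _ h1 (by omega)) ε' hε'0
    exact tree_succ he hpos hR hε hε' Tl Tr hsep

end Pool.Agent.C4D58
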