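import Pool.Agent.C4D58.Alg

set_option autoImplicit false

open scoped Topology ComplexConjugate
open Filter MeasureTheory

namespace Pool.Agent.C4D58

/-- Iterates of `t ↦ (3 t - t ^ 3) / 2`. -/
noncomputable def tau : ℕ → ℝ → ℝ
  | 0, c => c
  | (j + 1), c => (3 * tau j c - tau j c ^ 3) / 2

/-- The Laurent polynomial representing `tau j (cos (2 π θ))`. -/
noncomputable def TT : ℕ → AddMonoidAlgebra ℂ ℤ
  | 0 => AddMonoidAlgebra.single 1 (1 / 2) + AddMonoidAlgebra.single (-1) (1 / 2)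
  | (j + 1) => (1 / 2 : ℂ) • (3 * TT j - TT j ^ 3)

/-- the weight which is close to the indicator function of `cos > 0` -/
noncomputable def w1 (j : ℕ) : AddMonoidAlgebra ℂ ℤ := (1 / 2 : ℂ) • (1 + TT j)

/-- the weight which is close to the indicator function of `cos < 0` -/
noncomputable def w0 (j : ℕ) : AddMonoidAlgebra ℂ ℤ := (1 / 2 : ℂ) • (1 - TT j)

lemma w0_add_w1 (j : ℕ) : w0 j + w1 j = 1 := by
  unfold w0 w1
  rw [← smul_add]
  have : (1 - TT j + (1 + TT j)) = (2 : ℂ) • (1 : AddMonoidAlgebra ℂ ℤ) := by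
    rw [two_smul]; ring
  rw [this, smul_smul]
  norm_num

lemma tau_abs {c : ℝ} (hc : |c| ≤ 1) (j : ℕ) : |tau j c| ≤ 1 := by
  induction j with
  | zero => exact hc
  | succ j ih =>
    rw [abs_le] at ih ⊢
    obtain ⟨h1, h2⟩ := ih
    simp only [tau]
    constructor
    · nlinarith [mul_nonneg (sq_nonneg (1 + tau j c)) (by linarith : (0:ℝ) ≤ 2 - tau j c)]
    · nlinarith [mul_nonneg (sq_nonneg (1 - tau j c)) (by linarith : (0:ℝ) ≤ 2 + tau j c)]

lemma tau_mul {c : ℝ} (hc : |c| ≤ 1) (j : ℕ) : c ^ 2 ≤ tau j c * c := by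
  induction j with
  | zero => simp [tau, sq]
  | succ j ih =>
    have h1 := tau_abs hc j
    have h2 : tau j c ^ 2 ≤ 1 := by
      rw [← sq_abs]
      exact pow_le_one₀ (abs_nonneg _) h1
    have h3 : 0 ≤ tau j c * c := le_trans (sq_nonneg c) ih
    simp only [tau]
    nlinarith [mul_nonneg h3 (sub_nonneg.mpr h2)]

lemma tau_sq {c : ℝ} (hc : |c| ≤ 1) (j : ℕ) : 1 - tau j c ^ 2 ≤ (1 - c ^ 2) ^ (2 ^ j) := by
  induction j with
  | zero => simp [tau]
  | succ j ih =>
    have h1 := tau_abs hc j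
    have h2 : tau j c ^ 2 ≤ 1 := by
      rw [← sq_abs]
      exact pow_le_one₀ (abs_nonneg _) h1
    have h3 : 0 ≤ tau j c ^ 2 := sq_nonneg _
    rw [show (1 - c ^ 2) ^ 2 ^ (j + 1) = ((1 - c ^ 2) ^ 2 ^ j) ^ 2 by
      rw [← pow_mul, pow_succ 2 j]]
    have h4 : (1 - tau j c ^ 2) ^ 2 ≤ ((1 - c ^ 2) ^ 2 ^ j) ^ 2 :=
      pow_le_pow_left₀ (by linarith) ih 2
    refine le_trans ?_ h4
    simp only [tau]
    set t := tau j c
    have h5 : (1 - t ^ 2) ^ 2 - (1 - ((3 * t - t ^ 3) / 2) ^ 2) = (1 - t ^ 2) ^ 2 * (t ^ 2 / 4) := by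
      ring
    have h6 : 0 ≤ (1 - t ^ 2) ^ 2 * (t ^ 2 / 4) := by positivity
    linarith

/-- evaluation of a Laurent polynomial at `exp (2 π i θ)` -/
noncomputable abbrev evc (θ : ℝ) : AddMonoidAlgebra ℂ ℤ →ₐ[ℂ] ℂ := ev (zmultiplesHom ℝ θ)

lemma evc_single (θ : ℝ) (n : ℤ) (c : ℂ) :
    evc θ (AddMonoidAlgebra.single n c) = c * ex (n * θ) := by
  rw [evc, ev_single]
  congr 2
  simp

lemma evc_TT (θ : ℝ) (j : ℕ) : evc θ (TT j) = ((tau j (Real.cos (2 * Real.pi * θ)) : ℝ) : ℂ) := by
  induction j with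
  | zero =>
    simp only [TT, map_add, evc_single, tau]
    unfold ex
    rw [Complex.ofReal_cos, Complex.cos]
    push_cast
    rw [show (2 * (Real.pi : ℂ) * Complex.I * (1 * (θ : ℂ))) = 2 * Real.pi * θ * Complex.I by ring,
      show (2 * (Real.pi : ℂ) * Complex.I * (-1 * (θ : ℂ))) = -(2 * Real.pi * θ) * Complex.I by ring]
    ring
  | succ j ih =>
    simp only [TT, map_smul, map_sub, map_mul, map_pow, ih, tau, map_ofNat]
    push_cast
    simp only [smul_eq_mul]
    ring

lemma evc_w1 (θ : ℝ) (j : ℕ) :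
    evc θ (w1 j) = (((1 + tau j (Real.cos (2 * Real.pi * θ))) / 2 : ℝ) : ℂ) := by
  simp only [w1, map_smul, map_add, map_one, evc_TT]
  push_cast
  simp only [smul_eq_mul]
  ring

lemma evc_w0 (θ : ℝ) (j : ℕ) :
    evc θ (w0 j) = (((1 - tau j (Real.cos (2 * Real.pi * θ))) / 2 : ℝ) : ℂ) := by
  simp only [w0, map_smul, map_sub, map_one, evc_TT]
  push_cast
  simp only [smul_eq_mul]
  ring

lemma continuous_ex : Continuous ex := by
  unfold ex
  fun_prop

lemma continuous_evc (w : AddMonoidAlgebra ℂ ℤ) : Continuous fun θ : ℝ => evc θ w := by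
  induction w using AddMonoidAlgebra.induction_linear with
  | zero => simpa using continuous_const
  | add a b ha hb =>
    simp only [map_add]
    exact ha.add hb
  | single n c =>
    simp only [evc_single]
    exact continuous_const.mul (continuous_ex.comp (by fun_prop))

lemma coeff_zero_eq (w : AddMonoidAlgebra ℂ ℤ) : w.coeff 0 = ∫ θ in (0:ℝ)..1, evc θ w := by
  induction w using AddMonoidAlgebra.induction_linear with
  | zero => simp
  | add a b ha hb =>
    simp only [map_add]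
    rw [intervalIntegral.integral_add ((continuous_evc a).intervalIntegrable _ _)
      ((continuous_evc b).intervalIntegrable _ _), ← ha, ← hb]
    simp
  | single n c =>
    simp only [evc_single]
    rw [intervalIntegral.integral_const_mul]
    by_cases hn : n = 0
    · subst hn
      simp [ex_zero, -LaurentPolynomial.single_eq_C_mul_T]
    · rw [AddMonoidAlgebra.coeff_single, Finsupp.single_eq_of_ne (Ne.symm hn)]
      have h1 : (2 * (Real.pi : ℂ) * Complex.I * n) ≠ 0 := by
        have := Real.pi_ne_zero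
        simp [hn, Complex.I_ne_zero, this]
      have h2 : ∀ θ : ℝ, ex (n * θ) = Complex.exp ((2 * (Real.pi : ℂ) * Complex.I * n) * θ) := by
        intro θ
        unfold ex
        congr 1
        push_cast
        ring
      simp only [h2]
      rw [integral_exp_mul_complex h1]
      have h3 : Complex.exp ((2 * (Real.pi : ℂ) * Complex.I * n) * ((1 : ℝ) : ℂ)) = 1 := by
        rw [Complex.exp_eq_one_iff]
        exact ⟨n, by push_cast; ring⟩
      rw [h3]
      simp

/-- the mean of `w0 ^ 2 + w1 ^ 2` -/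
noncomputable def kap (j : ℕ) : ℝ :=
  ∫ θ in (0:ℝ)..1, (1 + tau j (Real.cos (2 * Real.pi * θ)) ^ 2) / 2

lemma coeff_kap (j : ℕ) :
    (w0 j * w0 j).coeff 0 + (w1 j * w1 j).coeff 0 = ((kap j : ℝ) : ℂ) := by
  rw [← Finsupp.add_apply, ← AddMonoidAlgebra.coeff_add, coeff_zero_eq, kap,
    ← intervalIntegral.integral_ofReal]
  congr 1
  ext θ
  simp only [map_add, map_mul, evc_w0, evc_w1]
  push_cast
  ring

lemma tau_continuous (j : ℕ) : Continuous fun c : ℝ => tau j c := by
  induction j with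
  | zero => exact continuous_id
  | succ j ih =>
    simp only [tau]
    fun_prop

lemma kap_lower {ε : ℝ} (hε : 0 < ε) : ∃ j, 1 - ε ≤ kap j := by
  have h1 : Tendsto (fun j : ℕ => ∫ θ in (0:ℝ)..1, (1 - Real.cos (2 * Real.pi * θ) ^ 2) ^ (2 ^ j))
      atTop (𝓝 (∫ θ in (0:ℝ)..1, (0:ℝ))) := by
    refine intervalIntegral.tendsto_integral_filter_of_dominated_convergence (fun _ => (1:ℝ)) ?_ ?_
      (by simp) ?_
    · refine Eventually.of_forall fun j => ?_
      exact (by fun_prop : Continuous fun θ : ℝ =>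
        (1 - Real.cos (2 * Real.pi * θ) ^ 2) ^ (2 ^ j)).aestronglyMeasurable
    · refine Eventually.of_forall fun j => Eventually.of_forall fun θ _ => ?_
      have h2 := Real.cos_sq_le_one (2 * Real.pi * θ)
      have h3 := sq_nonneg (Real.cos (2 * Real.pi * θ))
      rw [norm_pow, Real.norm_eq_abs, abs_of_nonneg (by linarith)]
      exact pow_le_one₀ (by linarith) (by linarith)
    · have hc : (Set.range fun k : ℤ => (2 * (k : ℝ) + 1) / 4).Countable := Set.countable_range _
      filter_upwards [hc.ae_notMem volume] with θ hθ _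
      have h4 : Real.cos (2 * Real.pi * θ) ≠ 0 := by
        intro h5
        rw [Real.cos_eq_zero_iff] at h5
        obtain ⟨k, hk⟩ := h5
        apply hθ
        refine ⟨k, ?_⟩
        have hpi := Real.pi_ne_zero
        field_simp at hk ⊢
        linarith
      have h5 : 0 < Real.cos (2 * Real.pi * θ) ^ 2 := by positivity
      have h2 := Real.cos_sq_le_one (2 * Real.pi * θ)
      exact (tendsto_pow_atTop_nhds_zero_of_lt_one (by linarith) (by linarith)).comp
        (tendsto_pow_atTop_atTop_of_one_lt (by norm_num))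
  rw [intervalIntegral.integral_zero] at h1
  obtain ⟨j, hj⟩ := (h1.eventually (gt_mem_nhds (show (0:ℝ) < 2 * ε by linarith))).exists
  refine ⟨j, ?_⟩
  have hint : IntervalIntegrable (fun θ : ℝ => (1 - Real.cos (2 * Real.pi * θ) ^ 2) ^ (2 ^ j))
      volume 0 1 := (by fun_prop : Continuous fun θ : ℝ =>
        (1 - Real.cos (2 * Real.pi * θ) ^ 2) ^ (2 ^ j)).intervalIntegrable _ _
  have hint2 : IntervalIntegrable (fun θ : ℝ => (1 + tau j (Real.cos (2 * Real.pi * θ)) ^ 2) / 2)
      volume 0 1 := by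
    have := tau_continuous j
    exact (by fun_prop : Continuous fun θ : ℝ =>
      (1 + tau j (Real.cos (2 * Real.pi * θ)) ^ 2) / 2).intervalIntegrable _ _
  have h6 : ∫ θ in (0:ℝ)..1, (1 - (1 / 2) * (1 - Real.cos (2 * Real.pi * θ) ^ 2) ^ (2 ^ j)) ≤
      kap j := by
    unfold kap
    refine intervalIntegral.integral_mono_on (by norm_num) ?_ hint2 ?_
    · exact (by fun_prop : Continuous fun θ : ℝ =>
        (1 - (1 / 2) * (1 - Real.cos (2 * Real.pi * θ) ^ 2) ^ (2 ^ j))).intervalIntegrable _ _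
    · intro θ _
      have := tau_sq (Real.abs_cos_le_one (2 * Real.pi * θ)) j
      linarith
  have h7 : ∫ θ in (0:ℝ)..1, (1 - (1 / 2) * (1 - Real.cos (2 * Real.pi * θ) ^ 2) ^ (2 ^ j)) =
      1 - (1 / 2) * ∫ θ in (0:ℝ)..1, (1 - Real.cos (2 * Real.pi * θ) ^ 2) ^ (2 ^ j) := by
    rw [intervalIntegral.integral_sub (by simp) (hint.const_mul _),
      intervalIntegral.integral_const_mul]
    simp
  rw [h7] at h6
  linarith

lemma bet_re (j : ℕ) : 1 / 4 ≤ ((w1 j * AddMonoidAlgebra.single 1 1).coeff 0).re := by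
  have h0 : (TT 0 + TT 0 * TT 0).coeff 0 = 1 / 2 := by
    simp only [TT, AddMonoidAlgebra.coeff_add, Finsupp.add_apply, add_mul, mul_add,
      AddMonoidAlgebra.single_mul_single, AddMonoidAlgebra.coeff_single]
    norm_num [Finsupp.single_apply]
  rw [coeff_zero_eq] at h0
  have h1 : ∫ θ in (0:ℝ)..1, (Real.cos (2 * Real.pi * θ) + Real.cos (2 * Real.pi * θ) ^ 2) =
      1 / 2 := by
    have h2 : (((∫ θ in (0:ℝ)..1, (Real.cos (2 * Real.pi * θ) +
        Real.cos (2 * Real.pi * θ) ^ 2) : ℝ)) : ℂ) = ((1 / 2 : ℝ) : ℂ) := by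
      rw [← intervalIntegral.integral_ofReal]
      push_cast
      rw [← h0]
      congr 1
      ext θ
      simp only [map_add, map_mul, evc_TT, tau]
      push_cast
      ring
    exact_mod_cast h2
  rw [coeff_zero_eq]
  have hcont : Continuous fun θ : ℝ => evc θ (w1 j * AddMonoidAlgebra.single 1 1) :=
    continuous_evc _
  have h3 := Complex.reCLM.intervalIntegral_comp_comm (hcont.intervalIntegrable (μ := volume) 0 1)
  simp only [Complex.reCLM_apply] at h3
  rw [← h3]
  have h4 : (1 / 4 : ℝ) = ∫ θ in (0:ℝ)..1, (1 / 2) * (Real.cos (2 * Real.pi * θ) +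
      Real.cos (2 * Real.pi * θ) ^ 2) := by
    rw [intervalIntegral.integral_const_mul, h1]
    norm_num
  rw [h4]
  refine intervalIntegral.integral_mono_on (by norm_num) ?_ ?_ ?_
  · exact (by fun_prop : Continuous fun θ : ℝ => (1 / 2) * (Real.cos (2 * Real.pi * θ) +
      Real.cos (2 * Real.pi * θ) ^ 2)).intervalIntegrable _ _
  · exact (Complex.continuous_re.comp hcont).intervalIntegrable _ _
  · intro θ _
    rw [map_mul, evc_w1, evc_single, Complex.re_ofReal_mul]
    have h5 : (1 * ex (((1 : ℤ) : ℝ) * θ)).re = Real.cos (2 * Real.pi * θ) := by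
      unfold ex
      rw [one_mul, show (2 * (Real.pi : ℂ) * Complex.I * ((((1 : ℤ) : ℝ) * θ : ℝ) : ℂ)) =
        ((2 * Real.pi * θ : ℝ) : ℂ) * Complex.I by push_cast; ring, Complex.exp_ofReal_mul_I_re]
    rw [h5]
    have h6 := tau_mul (Real.abs_cos_le_one (2 * Real.pi * θ)) j
    linarith

end Pool.Agent.C4D58
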